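import Pool.Agent.RS.StmtsF

set_option autoImplicit false

/-!
# Squad RS, row LSB
-/

namespace Pool.Agent.RS.H76

open MvPolynomial

theorem two_pow {R : Type} [CommRing R] (S : Subring R) {a b : R} (ha : a ∈ S) (hb : b ∈ S) :
    ∀ s s' : ℕ, ∃ A ∈ S, ∃ B ∈ S, (a + b) ^ (s + s') = a ^ s * A + b ^ s' * B := by
  intro s
  induction s with
  | zero =>
    intro s'
    exact ⟨(a + b) ^ s', S.pow_mem (S.add_mem ha hb) _, 0, S.zero_mem, by ring⟩
  | succ s ih =>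
    intro s'
    induction s' with
    | zero =>
      exact ⟨0, S.zero_mem, (a + b) ^ (s + 1), S.pow_mem (S.add_mem ha hb) _, by ring⟩
    | succ s' ih' =>
      obtain ⟨A₁, hA₁, B₁, hB₁, h₁⟩ := ih (s' + 1)
      obtain ⟨A₂, hA₂, B₂, hB₂, h₂⟩ := ih'
      refine ⟨A₁ + b * A₂, S.add_mem hA₁ (S.mul_mem hb hA₂), a * B₁ + B₂,
        S.add_mem (S.mul_mem ha hB₁) hB₂, ?_⟩
      have e1 : (a + b) ^ (s + 1 + (s' + 1)) =
          a * (a + b) ^ (s + (s' + 1)) + b * (a + b) ^ (s + 1 + s') := by ring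
      rw [e1, h₁, h₂]
      ring

theorem lsb (lmk : LmkStmt) (lmb : LmbStmt) (lmc : LmcStmt) (pjb : PjbStmt) : LsbStmt := by
  intro E _ J j c q e ρ α β hj hjq hq he he0 hα hβ hρ hρ0 hρJ f s s' hf
  obtain ⟨p1, -, p3, p4, -, -, -, -⟩ := pjb E
  have hsub : PJ E (insert j J) ≤ PJ E J := p3 J (insert j J) (Finset.subset_insert j J)
  have hfree : ∀ κ ∈ PJ E (insert j J), j ∉ κ.vars := fun κ hκ h =>
    (p1 _ κ).1 hκ j h (Finset.mem_insert_self j J)
  have hq0 : q ≠ 0 := by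
    rintro rfl
    rw [vars_0] at hjq
    exact absurd hjq (Finset.notMem_empty j)
  have hlc0 : lcx j q ≠ 0 := by
    unfold lcx
    rw [Ne, Polynomial.leadingCoeff_eq_zero]
    intro h
    exact hq0 (toX_injective j (h.trans (map_zero _).symm))
  have hlcJ : lcx j q ∈ PJ E (insert j J) := p4 J j q hq _
  have i0 : ∀ x : MvPolynomial ℕ E, x ≠ 0 → io E x ≠ 0 := fun x hx h =>
    hx (io_injective (h.trans (map_zero _).symm))
  have hαq : α * q ∈ PJ E J := Subring.mul_mem _ hα hq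
  have hβe : β * e ∈ PJ E J := Subring.mul_mem _ hβ he
  obtain ⟨A, hA, B, hB, hAB⟩ := two_pow (PJ E J) hαq hβe s s'
  obtain ⟨A', hA', B', hB', hAB'⟩ := two_pow (PJ E J) hαq hβe 1 s'
  rw [← hρ] at hAB hAB'
  -- the first term
  have h1 : lam j q c (io E (f * (α ^ s * A)) / io E (e ^ s')) = 0 := by
    refine lmb E j q _ (e ^ s') (α * A') (β ^ s' * B') (ρ ^ (1 + s')) c ?_
      (pow_ne_zero _ hρ0) (hfree _ (Subring.pow_mem _ hρJ _)) hjq
    rw [hAB']
    ring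
  -- the second term
  obtain ⟨M, a', ha', h2⟩ := lmc E J j q (f * (β ^ s' * B)) c s hjq hq
    (Subring.mul_mem _ hf (Subring.mul_mem _ (Subring.pow_mem _ hβ _) hB))
  have e0 := i0 e he0
  have q0 := i0 q hq0
  have r0 := i0 ρ hρ0
  have l0 := i0 _ hlc0
  have h3 : io E f / (io E e ^ s' * io E q ^ s) =
      (io E (f * (α ^ s * A)) / io E (e ^ s') + io E (f * (β ^ s' * B)) / io E q ^ s) /
        io E (ρ ^ (s + s')) := by
    have h4 : io E (ρ ^ (s + s')) =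
        io E q ^ s * io E (α ^ s * A) + io E e ^ s' * io E (β ^ s' * B) := by
      rw [hAB, ← map_pow, ← map_pow, ← map_mul, ← map_mul, ← map_add]
      congr 1
      ring
    have h5 : io E (ρ ^ (s + s')) ≠ 0 := i0 _ (pow_ne_zero _ hρ0)
    rw [map_mul, map_mul (io E) f (β ^ s' * B), map_pow (io E) e,
      div_add_div _ _ (pow_ne_zero _ e0) (pow_ne_zero _ q0), div_div, div_eq_div_iff
      (mul_ne_zero (pow_ne_zero _ e0) (pow_ne_zero _ q0))
      (mul_ne_zero (mul_ne_zero (pow_ne_zero _ e0) (pow_ne_zero _ q0)) h5), h4]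
    ring
  have h6 : lam j q c (io E f / (io E e ^ s' * io E q ^ s)) =
      io E a' / io E (lcx j q) ^ M / io E (ρ ^ (s + s')) := by
    rw [h3, (lmk E j q (ρ ^ (s + s')) c _ (hfree _ (Subring.pow_mem _ hρJ _))).2
      (pow_ne_zero _ hρ0), map_add, h1, zero_add, h2]
  refine ⟨a' * (lcx j q ^ (s + s') * ρ ^ M), M + (s + s'), Subring.mul_mem _ ha'
    (Subring.mul_mem _ (Subring.pow_mem _ hlcJ _) (Subring.pow_mem _ hρJ _)), ?_⟩
  rw [h6, div_div, map_pow, map_mul, map_mul, map_mul, map_pow, map_pow, div_eq_div_iff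
    (mul_ne_zero (pow_ne_zero _ l0) (pow_ne_zero _ r0)) (pow_ne_zero _ (mul_ne_zero l0 r0))]
  ring

end Pool.Agent.RS.H76
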